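import Mathlib

/-!
Selective high divergence is not dense hereditary: the Cantor cube `2^𝔠` is selectively highly
divergent, but its dense subspace of points with countable support is sequentially compact.
-/

set_option autoImplicit false

open Set Filter Topology

namespace Pool.Agent.Results.MP_f0fa00_gt.NotDenseHereditary

universe u

/-- No subsequence of the sequence `x` converges to any point of the space. -/
def NoConvSubseq {X : Type u} [TopologicalSpace X] (x : ℕ → X) : Prop :=
  ∀ φ : ℕ → ℕ, StrictMono φ → ∀ a : X, ¬ Tendsto (x ∘ φ) atTop (𝓝 a)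

/-- Selectively highly divergent (SHD) spaces: for every sequence `(U n)` of nonempty open sets
one can choose points `x n ∈ U n` such that `(x n)` has no convergent subsequences. -/
def SHD (X : Type u) [TopologicalSpace X] : Prop :=
  ∀ U : ℕ → Set X, (∀ n, IsOpen (U n) ∧ (U n).Nonempty) →
    ∃ x : ℕ → X, (∀ n, x n ∈ U n) ∧ NoConvSubseq x

/-- The points with countable support in the Cantor cube `I → Bool`. -/
def Sig (I : Type) : Set (I → Bool) := {x | {i | x i = true}.Countable}

/-- The points with countable support are dense. -/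
lemma dense_Sig (I : Type) : Dense (Sig I) := by
  rw [dense_iff_inter_open]
  rintro U hU ⟨x, hx⟩
  obtain ⟨F, u, hu, huU⟩ := isOpen_pi_iff.1 hU x hx
  classical
  refine ⟨fun i => if i ∈ F then x i else false, ?_, ?_⟩
  · apply huU
    intro i hi
    have hi' : i ∈ F := hi
    simp only [hi', if_true]
    exact (hu i hi).2
  · refine F.countable_toSet.mono ?_
    intro i hi
    by_contra h
    have h' : i ∉ F := h
    have hi' : (if i ∈ F then x i else false) = true := hi
    simp [h'] at hi'

/-- Extension of a function on `J` by `false`. -/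
noncomputable def ext {I : Type} (J : Set I) (y : J → Bool) : I → Bool := by
  classical
  exact fun i => if h : i ∈ J then y ⟨i, h⟩ else false

lemma continuous_ext {I : Type} (J : Set I) : Continuous (ext J) := by
  refine continuous_pi fun i => ?_
  by_cases h : i ∈ J
  · have : (fun y : J → Bool => ext J y i) = fun y => y ⟨i, h⟩ := by
      funext y
      simp [ext, h]
    rw [this]
    exact continuous_apply _
  · have : (fun y : J → Bool => ext J y i) = fun _ => false := by
      funext y
      simp [ext, h]
    rw [this]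
    exact continuous_const

lemma ext_mem {I : Type} {J : Set I} (hJ : J.Countable) (y : J → Bool) : ext J y ∈ Sig I := by
  refine hJ.mono ?_
  intro i hi
  by_contra h
  have hi' : ext J y i = true := hi
  simp [ext, h] at hi'

lemma ext_restrict {I : Type} {J : Set I} {x : I → Bool} (hx : {i | x i = true} ⊆ J) :
    ext J (fun j => x j) = x := by
  funext i
  by_cases h : i ∈ J
  · simp [ext, h]
  · have : x i ≠ true := fun h' => h (hx h')
    simp [ext, h, Bool.eq_false_iff.2 this]

/-- The subspace of the points with countable support is sequentially compact. -/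
lemma Sig_seqCompact {I : Type} (x : ℕ → Sig I) :
    ∃ φ : ℕ → ℕ, StrictMono φ ∧ ∃ a : Sig I, Tendsto (x ∘ φ) atTop (𝓝 a) := by
  set J : Set I := ⋃ n, {i | (x n).1 i = true} with hJ
  have hJc : J.Countable := countable_iUnion fun n => (x n).2
  have : Countable J := hJc.to_subtype
  obtain ⟨y, φ, hφ, hy⟩ := CompactSpace.tendsto_subseq (fun n => fun j : J => (x n).1 j)
  refine ⟨φ, hφ, ⟨ext J y, ext_mem hJc y⟩, ?_⟩
  rw [tendsto_subtype_rng]
  have h1 := ((continuous_ext J).tendsto y).comp hy
  refine h1.congr fun n => ?_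
  show ext J (fun j : J => (x (φ n)).1 j) = (x (φ n)).1
  exact ext_restrict fun i hi => mem_iUnion.2 ⟨φ n, hi⟩

lemma not_SHD_Sig (I : Type) : ¬ SHD (Sig I) := by
  intro h
  obtain ⟨x, _, hx⟩ := h (fun _ => univ) fun _ =>
    ⟨isOpen_univ, ⟨⟨fun _ => false, by simp [Sig]⟩, mem_univ _⟩⟩
  obtain ⟨φ, hφ, a, ha⟩ := Sig_seqCompact x
  exact hx φ hφ a ha

/-- The Cantor cube with exponent `𝔠` is selectively highly divergent. -/
lemma SHD_cube : SHD (Set ℕ × ℝ → Bool) := by
  intro U hU
  have h1 : ∀ n, ∃ (z : Set ℕ × ℝ → Bool) (F : Set (Set ℕ × ℝ)), F.Countable ∧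
      ∀ y : Set ℕ × ℝ → Bool, (∀ i ∈ F, y i = z i) → y ∈ U n := by
    intro n
    obtain ⟨z, hz⟩ := (hU n).2
    obtain ⟨F, u, hu, huU⟩ := isOpen_pi_iff.1 (hU n).1 z hz
    refine ⟨z, F, F.countable_toSet, fun y hy => huU fun i hi => ?_⟩
    rw [hy i hi]
    exact (hu i hi).2
  choose z F hF hz using h1
  classical
  set S : Set (Set ℕ × ℝ) := ⋃ n, F n with hS
  have hSc : S.Countable := countable_iUnion hF
  set y : ℕ → Set ℕ × ℝ → Bool := fun n i => if i ∈ S then z n i else decide (n ∈ i.1) with hy
  refine ⟨y, fun n => hz n _ fun i hi => ?_, ?_⟩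
  · have : i ∈ S := mem_iUnion.2 ⟨n, hi⟩
    simp [hy, this]
  · intro φ hφ a ha
    -- the set of every second element of the subsequence
    set A : Set ℕ := range fun k => φ (2 * k) with hA
    obtain ⟨t, ht⟩ : ∃ t : ℝ, (A, t) ∉ S := by
      by_contra hcon
      push Not at hcon
      have h2 : (univ : Set ℝ).Countable := by
        have h3 : ((fun t : ℝ => (A, t)) ⁻¹' S).Countable :=
          hSc.preimage fun s t hst => (Prod.ext_iff.1 hst).2
        exact h3.mono fun t _ => hcon t
      exact not_countable_univ h2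
    have h2 : Tendsto (fun k => y (φ k) (A, t)) atTop (𝓝 (a (A, t))) :=
      (tendsto_pi_nhds.1 ha) (A, t)
    have h3 : ∀ k, y (φ k) (A, t) = decide (φ k ∈ A) := by
      intro k
      simp [hy, ht]
    have h4 : ∀ k, φ k ∈ A ↔ Even k := by
      intro k
      constructor
      · rintro ⟨l, hl⟩
        have : 2 * l = k := hφ.injective hl
        exact ⟨l, by omega⟩
      · rintro ⟨l, hl⟩
        exact ⟨l, by show φ (2 * l) = φ k; rw [hl]; congr 1; omega⟩
    rw [nhds_discrete, tendsto_pure] at h2
    obtain ⟨N, hN⟩ := eventually_atTop.1 h2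
    have h5 := hN (2 * N) (by omega)
    have h6 := hN (2 * N + 1) (by omega)
    rw [h3] at h5 h6
    have h7 : decide (φ (2 * N) ∈ A) = true := by
      rw [decide_eq_true_iff, h4]
      exact even_two_mul N
    have h8 : decide (φ (2 * N + 1) ∈ A) = false := by
      rw [decide_eq_false_iff_not, h4]
      exact Nat.not_even_two_mul_add_one N
    rw [h7] at h5
    rw [h8, ← h5] at h6
    exact absurd h6 (by simp)

/-- **Selective high divergence is not dense hereditary.** -/
theorem result : ∃ (X : Type) (_ : TopologicalSpace X) (D : Set X),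
    CompactSpace X ∧ T2Space X ∧ SHD X ∧ Dense D ∧ ¬ SHD D :=
  ⟨Set ℕ × ℝ → Bool, inferInstance, Sig _, inferInstance, inferInstance, SHD_cube, dense_Sig _,
    not_SHD_Sig _⟩

end Pool.Agent.Results.MP_f0fa00_gt.NotDenseHereditary
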